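import Pool.Agent.Work.MP_db9399_exp.Interface
import Pool.Agent.Work.MP_db9399_px_helper6.PARTX

/-!
# MP_db9399, THEOREM EXP: block PARTXW (from PX1)
-/

set_option autoImplicit false

namespace Pool.Agent.Work.MP_db9399_exp.helper6

open Finset Classical
open Pool.Agent.Work.MP_db9399_all (nb mis)
open Pool.Agent.Work.MP_db9399_px (BE NR ee ff cc atm Blocks at' Stmt_PX1)
open Pool.Agent.Work.MP_db9399_px.helper6.PARTXAux

universe u

namespace PARTXWAux

/-- parities -/
theorem sum_par (m r : ℕ) (h : r ≤ 2 * m) :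
    ∑ j ∈ range m, (if 2 * j < r then 1 else 0) =
      ∑ j ∈ range m, (if 2 * j + 1 < r then 1 else 0) + r % 2 := by
  have h1 : ∀ j, (if 2 * j < r then 1 else 0) =
      (if 2 * j + 1 < r then 1 else 0) + (if 2 * j + 1 = r then 1 else 0) := by
    intro j
    split_ifs <;> omega
  rw [Finset.sum_congr rfl fun j _ => h1 j, Finset.sum_add_distrib]
  congr 1
  rcases Nat.even_or_odd r with ⟨q, hq⟩ | ⟨q, hq⟩
  · rw [Finset.sum_eq_zero]
    · omega
    · intro j _
      rw [if_neg (by omega)]
  · rw [Finset.sum_eq_single_of_mem q (by rw [Finset.mem_range]; omega)]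
    · rw [if_pos hq.symm]
      omega
    · intro j _ hj
      rw [if_neg (by omega)]

/-- the order of the atoms -/
noncomputable def ord (T : Type) [Fintype T] : Bool × T ≃ Fin (Fintype.card T * 2) :=
  (((Equiv.boolProdEquivSum T).trans (Equiv.sumComm T T)).trans
    ((Equiv.boolProdEquivSum T).symm)).trans
    (((finTwoEquiv.symm.prodCongr (Fintype.equivFin T))).trans
      ((Equiv.prodComm _ _).trans finProdFinEquiv))

theorem ord_true (T : Type) [Fintype T] (t : T) :
    (ord T (true, t) : ℕ) = 2 * (Fintype.equivFin T t : ℕ) := by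
  simp [ord, finProdFinEquiv, Equiv.boolProdEquivSum, finTwoEquiv]

theorem ord_false (T : Type) [Fintype T] (t : T) :
    (ord T (false, t) : ℕ) = 2 * (Fintype.equivFin T t : ℕ) + 1 := by
  simp [ord, finProdFinEquiv, Equiv.boolProdEquivSum, finTwoEquiv]
  omega

section
variable {V : Type u} [Fintype V] (U : Finset V)

/-- the vertices outside `U` -/
abbrev Wt (U : Finset V) : Type u := {v : V // v ∉ U}

variable (o : Fin (Fintype.card (Wt U)) ≃ Wt U) {M : ℕ} (hM : 0 < M)

/-- the block of a vertex -/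
noncomputable def bkU (M : ℕ) (v : V) : V := if h : v ∉ U then ((bk o M ⟨v, h⟩ : Wt U) : V) else v

/-- the position of a vertex -/
noncomputable def psU (v : V) : Fin M := if h : v ∉ U then ps o hM ⟨v, h⟩ else ⟨0, hM⟩

theorem bkU_not (v : V) (h : v ∉ U) : bkU U o M v = ((bk o M ⟨v, h⟩ : Wt U) : V) := by
  unfold bkU
  rw [dif_pos h]

theorem psU_not (v : V) (h : v ∉ U) : psU U o hM v = ps o hM ⟨v, h⟩ := by
  unfold psU
  rw [dif_pos h]

theorem bkU_mem (v : V) (h : v ∈ U) : bkU U o M v = v := by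
  unfold bkU
  rw [dif_neg (not_not.2 h)]

theorem blocksU : Blocks M (bkU U o M) (psU U o hM) := by
  intro v w h h'
  by_cases hv : v ∈ U
  · by_cases hw : w ∈ U
    · rwa [bkU_mem U o v hv, bkU_mem U o w hw] at h
    · rw [bkU_mem U o v hv, bkU_not U o w hw] at h
      exact absurd hv (h ▸ (bk o M ⟨w, hw⟩).2)
  · by_cases hw : w ∈ U
    · rw [bkU_mem U o w hw, bkU_not U o v hv] at h
      exact absurd hw (h ▸ (bk o M ⟨v, hv⟩).2)
    · rw [bkU_not U o v hv, bkU_not U o w hw] at h
      rw [psU_not U o hM v hv, psU_not U o hM w hw] at h'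
      have := blocks o hM _ _ (Subtype.ext h) h'
      exact congrArg Subtype.val this

variable (f : V → Fin (M.factorial))

/-- the atom number of a vertex -/
noncomputable def ppU (v : V) : Fin M :=
  if h : v ∉ U then pp o hM (Equiv.refl _) (fun w : Wt U => f (w : V)) ⟨v, h⟩ else ⟨0, hM⟩

theorem ppU_not (v : V) (h : v ∉ U) :
    ppU U o hM f v = pp o hM (Equiv.refl _) (fun w : Wt U => f (w : V)) ⟨v, h⟩ := by
  unfold ppU
  rw [dif_pos h]

/-- the vertices of the last block -/
noncomputable def lastU (M : ℕ) : Finset V := (last o M).map (Function.Embedding.subtype _)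

include hM in
theorem card_lastU : (lastU U o M).card ≤ M := by
  unfold lastU
  rw [Finset.card_map]
  exact card_last o hM

/-- the vertices outside `U` with atom number in `P` -/
noncomputable def clN (P : Finset (Fin M)) : Finset V :=
  univ.filter (fun v => v ∉ U ∧ ppU U o hM f v ∈ P)

theorem clN_eq (P : Finset (Fin M)) : clN U o hM f P =
    (at' (pp o hM (Equiv.refl _) (fun w : Wt U => f (w : V))) P).map
      (Function.Embedding.subtype _) := by
  ext v
  simp only [clN, at', Finset.mem_filter, Finset.mem_univ, true_and, Finset.mem_map,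
    Function.Embedding.coe_subtype, Subtype.exists, exists_and_right, exists_eq_right]
  constructor
  · rintro ⟨h1, h2⟩
    exact ⟨h1, by rwa [ppU_not U o hM f v h1] at h2⟩
  · rintro ⟨h1, h2⟩
    exact ⟨h1, by rwa [ppU_not U o hM f v h1]⟩

theorem clN_sub (P : Finset (Fin M)) :
    clN U o hM f P ⊆ cc M (bkU U o M) (psU U o hM) f P ∪ lastU U o M := by
  intro v hv
  simp only [clN, Finset.mem_filter, Finset.mem_univ, true_and] at hv
  obtain ⟨h1, h2⟩ := hv
  rw [ppU_not U o hM f v h1] at h2
  by_cases h : full o M (⟨v, h1⟩ : Wt U)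
  · apply Finset.mem_union_left
    simp only [cc, Finset.mem_filter, Finset.mem_univ, true_and]
    unfold pp at h2
    rw [if_pos h] at h2
    unfold atm at h2 ⊢
    rwa [bkU_not U o v h1, psU_not U o hM v h1]
  · apply Finset.mem_union_right
    unfold lastU
    rw [Finset.mem_map]
    exact ⟨⟨v, h1⟩, by simp [last, h], rfl⟩

theorem cc_subU (P : Finset (Fin M)) :
    cc M (bkU U o M) (psU U o hM) f P ⊆ clN U o hM f P ∪ (lastU U o M ∪ U) := by
  intro v hv
  simp only [cc, Finset.mem_filter, Finset.mem_univ, true_and] at hv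
  by_cases h1 : v ∈ U
  · exact Finset.mem_union_right _ (Finset.mem_union_right _ h1)
  by_cases h : full o M (⟨v, h1⟩ : Wt U)
  · apply Finset.mem_union_left
    simp only [clN, Finset.mem_filter, Finset.mem_univ, true_and]
    refine ⟨h1, ?_⟩
    rw [ppU_not U o hM f v h1]
    unfold pp
    rw [if_pos h]
    unfold atm at hv ⊢
    rwa [bkU_not U o v h1, psU_not U o hM v h1] at hv
  · apply Finset.mem_union_right
    apply Finset.mem_union_left
    unfold lastU
    rw [Finset.mem_map]
    exact ⟨⟨v, h1⟩, by simp [last, h], rfl⟩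

end

theorem card_inter_le' {V : Type u} {S X Y L : Finset V} {M : ℕ} (h : X ⊆ Y ∪ L)
    (hL : (S ∩ L).card ≤ M) : ((S ∩ X).card : ℝ) ≤ (S ∩ Y).card + M := by
  have h1 : (S ∩ X).card ≤ (S ∩ Y).card + (S ∩ L).card := by
    refine (Finset.card_le_card (t := (S ∩ Y) ∪ (S ∩ L)) ?_).trans (Finset.card_union_le _ _)
    intro v hv
    rw [Finset.mem_inter] at hv
    rcases Finset.mem_union.1 (h hv.2) with h1 | h1
    · exact Finset.mem_union_left _ (Finset.mem_inter.2 ⟨hv.1, h1⟩)
    · exact Finset.mem_union_right _ (Finset.mem_inter.2 ⟨hv.1, h1⟩)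
  have h2 : ((S ∩ X).card : ℝ) ≤ ((S ∩ Y).card + (S ∩ L).card : ℕ) := by exact_mod_cast h1
  have h3 : ((S ∩ L).card : ℝ) ≤ M := by exact_mod_cast hL
  push_cast at h2
  linarith

/-- the functional inequality for large sets -/
theorem ff_bigU {V : Type u} [Fintype V] (G : SimpleGraph V) {M M' : ℕ} {τ g : ℝ} (hτ : 0 ≤ τ)
    (hg : 0 ≤ g) {C C' L L' A B : Finset V} (hL : L.card ≤ M) (hLL : L ⊆ L')
    (hL' : ∀ a, (nb G a ∩ L').card ≤ M') (hC : C ⊆ C' ∪ L')
    (h1 : g * (A \ L).card ≤ ff G τ C (A \ L) (B \ L)) :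
    g * ((A.card : ℝ) - M) - M' * A.card - τ * M ≤ ff G τ C' A B := by
  have hLr : (L.card : ℝ) ≤ M := by exact_mod_cast hL
  have h2 : (A.card : ℝ) - M ≤ (A \ L).card := by
    have h3 : A.card ≤ (A \ L).card + L.card := by
      have := Finset.card_le_card (s := A) (t := (A \ L) ∪ L) (by
        intro v hv
        by_cases h : v ∈ L
        · exact Finset.mem_union_right _ h
        · exact Finset.mem_union_left _ (Finset.mem_sdiff.2 ⟨hv, h⟩))
      exact this.trans (Finset.card_union_le _ _)
    have h4 : (A.card : ℝ) ≤ ((A \ L).card + L.card : ℕ) := by exact_mod_cast h3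
    push_cast at h4
    linarith
  have h3 : ((B \ L).card : ℝ) ≤ B.card := by
    exact_mod_cast Finset.card_le_card Finset.sdiff_subset
  have h4 : ee G (A \ L) (C \ (B \ L)) ≤ ee G A (C' \ B) + M' * A.card := by
    have h5 : ee G (A \ L) (C \ (B \ L)) ≤ ∑ a ∈ A, ((nb G a ∩ (C \ (B \ L))).card : ℝ) :=
      Finset.sum_le_sum_of_subset_of_nonneg Finset.sdiff_subset fun _ _ _ => Nat.cast_nonneg _
    have h6 : ∑ a ∈ A, ((nb G a ∩ (C \ (B \ L))).card : ℝ) ≤
        ∑ a ∈ A, (((nb G a ∩ (C' \ B)).card : ℝ) + M') := by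
      refine Finset.sum_le_sum fun a _ => card_inter_le' (L := L') ?_ (hL' a)
      intro v hv
      rw [Finset.mem_sdiff, Finset.mem_sdiff] at hv
      rw [Finset.mem_union, Finset.mem_sdiff]
      by_cases h : v ∈ L'
      · exact Or.inr h
      · left
        rcases Finset.mem_union.1 (hC hv.1) with h7 | h7
        · exact ⟨h7, fun h8 => hv.2 ⟨h8, fun h9 => h (hLL h9)⟩⟩
        · exact absurd h7 h
    rw [Finset.sum_add_distrib, Finset.sum_const, nsmul_eq_mul] at h6
    unfold ee at h5 ⊢
    linarith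
  unfold ff at h1 ⊢
  have h5 : g * ((A.card : ℝ) - M) ≤ g * (A \ L).card := mul_le_mul_of_nonneg_left h2 hg
  have h6 : τ * (((B \ L).card : ℝ) - (A \ L).card) ≤ τ * ((B.card : ℝ) - A.card + M) :=
    mul_le_mul_of_nonneg_left (by linarith) hτ
  have h7 : τ * ((B.card : ℝ) - A.card + M) = τ * ((B.card : ℝ) - A.card) + τ * M := by ring
  linarith

/-- the number of missing pairs -/
theorem mis_ge {V : Type u} [Fintype V] (G : SimpleGraph V) (S : Finset V) :
    (S.card : ℝ) ^ 2 - S.card - ee G S S ≤ ((mis G S).card : ℝ) := by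
  have h1 : ee G S S = (((S ×ˢ S).filter (fun p => G.Adj p.1 p.2)).card : ℝ) := by
    unfold ee
    rw [← Nat.cast_sum]
    congr 1
    rw [Finset.card_eq_sum_ones, Finset.sum_filter, Finset.sum_product]
    refine Finset.sum_congr rfl fun a _ => ?_
    rw [← Finset.sum_filter, ← Finset.card_eq_sum_ones]
    congr 1
    ext w
    simp [nb, and_comm]
  have h2 : (((S ×ˢ S).filter (fun p => p.1 = p.2)).card : ℝ) = S.card := by
    congr 1
    rw [← Finset.diag_card S]
    congr 1
    ext ⟨a, b⟩
    simp only [Finset.mem_filter, Finset.mem_product, Finset.mem_diag]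
    constructor
    · rintro ⟨⟨h, _⟩, h'⟩
      exact ⟨h, h'⟩
    · rintro ⟨h, h'⟩
      exact ⟨⟨h, h' ▸ h⟩, h'⟩
  have h3 : (S ×ˢ S).card ≤ (mis G S).card + ((S ×ˢ S).filter (fun p => p.1 = p.2)).card +
      ((S ×ˢ S).filter (fun p => G.Adj p.1 p.2)).card := by
    refine (Finset.card_le_card (t := (mis G S ∪ (S ×ˢ S).filter (fun p => p.1 = p.2)) ∪
      (S ×ˢ S).filter (fun p => G.Adj p.1 p.2)) ?_).trans
      ((Finset.card_union_le _ _).trans (Nat.add_le_add_right (Finset.card_union_le _ _) _))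
    intro p hp
    by_cases h4 : G.Adj p.1 p.2
    · exact Finset.mem_union_right _ (Finset.mem_filter.2 ⟨hp, h4⟩)
    · apply Finset.mem_union_left
      by_cases h5 : p.1 = p.2
      · exact Finset.mem_union_right _ (Finset.mem_filter.2 ⟨hp, h5⟩)
      · exact Finset.mem_union_left _ (by unfold mis; exact Finset.mem_filter.2 ⟨hp, h5, h4⟩)
  rw [Finset.card_product] at h3
  have h4 : ((S.card * S.card : ℕ) : ℝ) ≤ ((mis G S).card +
      ((S ×ˢ S).filter (fun p => p.1 = p.2)).card +
      ((S ×ˢ S).filter (fun p => G.Adj p.1 p.2)).card : ℕ) := by exact_mod_cast h3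
  push_cast at h4
  rw [h1]
  nlinarith

end PARTXWAux

open PARTXWAux

/-- Block PARTXW. -/
theorem stmt_PARTXW (hPX1 : Stmt_PX1.{u}) : Stmt_PARTXW.{u} := by
  intro T _ _ γ δ hγ hγ1 hδ
  obtain ⟨M, E, hE1, hE2, hMdef⟩ : ∃ (M : ℕ) (E : Bool × T ≃ Fin M),
      (∀ t, (E (true, t) : ℕ) = 2 * (Fintype.equivFin T t : ℕ)) ∧
      (∀ t, (E (false, t) : ℕ) = 2 * (Fintype.equivFin T t : ℕ) + 1) ∧
      M = Fintype.card T * 2 := ⟨_, ord T, ord_true T, ord_false T, rfl⟩
  have hT : 0 < Fintype.card T := Fintype.card_pos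
  have hM : 0 < M := by omega
  have hMr : (1 : ℝ) ≤ M := by exact_mod_cast hM
  have hM0 : (0 : ℝ) < M := by linarith
  have hTr : (0 : ℝ) < Fintype.card T := by exact_mod_cast hT
  have hM2 : (2 * Fintype.card T : ℝ) = M := by rw [hMdef]; push_cast; ring
  set δ' : ℝ := min δ (γ / (64 * M ^ 2)) with hδ'
  have hδ'0 : 0 < δ' := lt_min hδ (by positivity)
  have hδ'δ : δ' ≤ δ := min_le_left _ _
  have hδ'M : δ' ≤ γ / (64 * M ^ 2) := min_le_right _ _
  have hδ'M' : 64 * (M : ℝ) ^ 2 * δ' ≤ γ := by
    rw [le_div_iff₀ (by positivity)] at hδ'M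
    linarith
  obtain ⟨ε1, d1, hε1, hd1, H⟩ := hPX1 γ (δ' / 2) M hγ hγ1 (by positivity) hM
  obtain ⟨N, hN⟩ := exists_nat_ge
    (8 * (M : ℝ) ^ 2 + 128 * ((M + 3) * M) / γ + 4 * (M + 3) / δ')
  refine ⟨min ε1 (δ / (2 * Fintype.card T)), max d1 N, lt_min hε1 (by positivity), ?_⟩
  intro V _ G d U hd hn hNR hBE hU3
  have hdr : 8 * (M : ℝ) ^ 2 + 128 * ((M + 3) * M) / γ + 4 * (M + 3) / δ' ≤ d :=
    hN.trans (by exact_mod_cast (le_max_right _ _).trans hd)
  have hp1 : 0 ≤ 8 * (M : ℝ) ^ 2 := by positivity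
  have hp2 : 0 ≤ 128 * (((M : ℝ) + 3) * M) / γ := by positivity
  have hp3 : 0 ≤ 4 * ((M : ℝ) + 3) / δ' := by positivity
  have hd0 : (0 : ℝ) < d := by nlinarith
  have hdδ : 4 * ((M : ℝ) + 3) ≤ δ' * d := by
    have : 4 * ((M : ℝ) + 3) / δ' ≤ d := by linarith
    rw [div_le_iff₀ hδ'0] at this
    linarith
  have hNR1 : NR G d ε1 := by
    intro v
    refine ⟨(hNR v).1, le_trans ?_ (hNR v).2⟩
    have : min ε1 (δ / (2 * Fintype.card T)) ≤ ε1 := min_le_left _ _
    nlinarith
  have hdeg : ∀ v, (nb G v).card ≤ d := fun v => (hNR v).1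
  obtain ⟨o, ho⟩ := exists_sort (fun w : Wt U => (nb G (w : V)).card)
  obtain ⟨f, hf1, hf2⟩ := H G d (bkU U o M) (psU U o hM) ((le_max_left _ _).trans hd) hNR1 hBE
    (blocksU U o hM)
  have hlast := card_lastU U o hM
  set f' : Wt U → Fin (M.factorial) := fun w => f (w : V) with hf'
  set π : V → Bool × T := fun v => E.symm (ppU U o hM f v) with hπ
  have hcls : ∀ P : Finset (Bool × T), cls U π P = clN U o hM f (P.map E.toEmbedding) := by
    intro P
    ext v
    simp only [cls, clN, hπ, Finset.mem_filter, Finset.mem_univ, true_and,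
      Finset.mem_map_equiv]
  have hcls1 : ∀ a : Bool × T, cls U π {a} = clN U o hM f {E a} := by
    intro a
    rw [hcls, Finset.map_singleton]
    rfl
  have hcard : ∀ a : Bool × T, (cls U π {a}).card =
      Fintype.card (Wt U) / M + if (E a : ℕ) < Fintype.card (Wt U) % M then 1 else 0 := by
    intro a
    rw [hcls1, clN_eq, Finset.card_map]
    exact card_at o hM (Equiv.refl _) f' (E a)
  have hsum : ∀ F : ℕ → ℕ, ∑ t : T, F (Fintype.equivFin T t) = ∑ j ∈ range (Fintype.card T), F j := by
    intro F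
    rw [Finset.sum_range, ← Equiv.sum_comp (Fintype.equivFin T)]
  have hr : Fintype.card (Wt U) % M ≤ 2 * Fintype.card T := by
    have := Nat.mod_lt (Fintype.card (Wt U)) hM
    omega
  have hsides : (∑ t, (cls U π {(true, t)}).card) =
      (∑ t, (cls U π {(false, t)}).card) + (Fintype.card (Wt U) % M) % 2 := by
    simp only [hcard, hE1, hE2, Finset.sum_add_distrib]
    rw [hsum (fun j => if 2 * j < Fintype.card (Wt U) % M then 1 else 0),
      hsum (fun j => if 2 * j + 1 < Fintype.card (Wt U) % M then 1 else 0), sum_par _ _ hr, add_assoc]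
  -- degrees
  have hL3 : ∀ v, (nb G v ∩ (lastU U o M ∪ U)).card ≤ M + 3 := by
    intro v
    rw [Finset.inter_union_distrib_left]
    refine (Finset.card_union_le _ _).trans (Nat.add_le_add ?_ (hU3 v))
    exact (Finset.card_le_card Finset.inter_subset_right).trans hlast
  have hL0 : ∀ v, (nb G v ∩ lastU U o M).card ≤ M + 3 := by
    intro v
    exact ((Finset.card_le_card Finset.inter_subset_right).trans hlast).trans (by omega)
  have hD : ∀ v (P : Finset (Fin M)),
      |((nb G v ∩ clN U o hM f P).card : ℝ) - (P.card : ℝ) / M * d| ≤ δ' * d := by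
    intro v P
    have h1 := (hf1 v P).1
    have h2 := card_inter_le' (S := nb G v) (clN_sub U o hM f P) (hL0 v)
    have h3 := card_inter_le' (S := nb G v) (cc_subU U o hM f P) (hL3 v)
    push_cast at h2 h3
    rw [abs_le] at h1 ⊢
    constructor <;> linarith
  refine ⟨π, Fintype.card (Wt U) / M, (Fintype.card (Wt U) % M) % 2, by omega, ?_, ?_, hsides, ?_, ?_, ?_, ?_⟩
  · intro a
    rw [hcard]
    split_ifs <;> omega
  · intro t
    rw [hcard, hcard, hE1, hE2]
    split_ifs <;> omega
  · intro v a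
    have h1 := hD v {E a}
    rw [← hcls1, Finset.card_singleton] at h1
    rw [hM2]
    have h2 : ((1 : ℕ) : ℝ) / M * d = d / M := by
      push_cast
      ring
    rw [h2] at h1
    exact h1.trans (mul_le_mul_of_nonneg_right hδ'δ hd0.le)
  · -- degree sums
    set c : ℝ := δ / (2 * Fintype.card T) * d with hc
    have hc0 : 0 ≤ c := by positivity
    set g : Wt U → ℝ := fun w => ((nb G (w : V)).card : ℝ) - d with hg
    have hgm : Monotone (fun i => g (o i)) := by
      intro i j hij
      have h1 : ((nb G (o i : V)).card : ℝ) ≤ (nb G (o j : V)).card := by exact_mod_cast ho hij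
      simp only [hg]
      linarith
    have hg0 : ∀ v, g v ≤ 0 := by
      intro v
      have h1 : ((nb G (v : V)).card : ℝ) ≤ d := by exact_mod_cast hdeg v
      simp only [hg]
      linarith
    have hgc : ∀ v, -c ≤ g v := by
      intro v
      have h1 := (hNR (v : V)).2
      have h2 : min ε1 (δ / (2 * Fintype.card T)) ≤ δ / (2 * Fintype.card T) := min_le_right _ _
      have h3 : min ε1 (δ / (2 * Fintype.card T)) * (d : ℝ) ≤ δ / (2 * Fintype.card T) * d :=
        mul_le_mul_of_nonneg_right h2 hd0.le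
      simp only [hg, hc]
      linarith
    have hcl : ∀ a : Bool × T, ∑ w ∈ at' (pp o hM (Equiv.refl _) f') {E a}, g w =
        (∑ v ∈ cls U π {a}, ((nb G v).card : ℝ)) - ((cls U π {a}).card : ℝ) * d := by
      intro a
      rw [hcls1, clN_eq, Finset.sum_map, Finset.card_map]
      simp only [hg, Function.Embedding.coe_subtype]
      rw [Finset.sum_sub_distrib, Finset.sum_const, nsmul_eq_mul]
    have h1 : ∀ a b : Bool × T,
        ((∑ v ∈ cls U π {a}, ((nb G v).card : ℝ)) - ((cls U π {a}).card : ℝ) * d) -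
        ((∑ v ∈ cls U π {b}, ((nb G v).card : ℝ)) - ((cls U π {b}).card : ℝ) * d) ≤ 2 * c := by
      intro a b
      rw [← hcl, ← hcl]
      exact sum_le o hM (Equiv.refl _) f' g c hgm hg0 hgc hc0 (E a) (E b)
    have hside : ∀ s : Bool, ∑ v ∈ univ.filter (fun v => v ∉ U ∧ (π v).1 = s),
        ((nb G v).card : ℝ) = ∑ t, ∑ v ∈ cls U π {(s, t)}, ((nb G v).card : ℝ) := by
      intro s
      rw [← Finset.sum_fiberwise (univ.filter (fun v => v ∉ U ∧ (π v).1 = s))
        (fun v => (π v).2)]
      refine Finset.sum_congr rfl fun t _ => ?_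
      refine Finset.sum_congr ?_ fun _ _ => rfl
      ext v
      simp only [cls, Finset.mem_filter, Finset.mem_univ, true_and, Finset.mem_singleton,
        Prod.ext_iff]
      tauto
    rw [hside, hside]
    have h2 : (((Fintype.card (Wt U) % M) % 2 : ℕ) : ℝ) = (∑ t, ((cls U π {(true, t)}).card : ℝ)) -
        ∑ t, ((cls U π {(false, t)}).card : ℝ) := by
      have : (∑ t, ((cls U π {(true, t)}).card : ℝ)) =
          (∑ t, ((cls U π {(false, t)}).card : ℝ)) + (((Fintype.card (Wt U) % M) % 2 : ℕ) : ℝ) := by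
        exact_mod_cast hsides
      linarith
    rw [h2]
    have h3 : ∀ a b : Bool, (∑ t, ((∑ v ∈ cls U π {(a, t)}, ((nb G v).card : ℝ)) -
        ((cls U π {(a, t)}).card : ℝ) * d)) -
        (∑ t, ((∑ v ∈ cls U π {(b, t)}, ((nb G v).card : ℝ)) -
        ((cls U π {(b, t)}).card : ℝ) * d)) ≤ δ * d := by
      intro a b
      rw [← Finset.sum_sub_distrib]
      refine (Finset.sum_le_sum fun t _ => h1 (a, t) (b, t)).trans (le_of_eq ?_)
      rw [Finset.sum_const, Finset.card_univ, nsmul_eq_mul, hc]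
      field_simp
    have h4 := h3 true false
    have h5 := h3 false true
    simp only [Finset.sum_sub_distrib, ← Finset.sum_mul] at h4 h5
    rw [abs_le]
    constructor <;> nlinarith
  · -- the functional
    intro P Q hPQ hP A B hA hB hAc
    rw [hcls] at hA hAc
    rw [hcls] at hB
    rw [hcls]
    rw [hM2, mul_div_right_comm]
    have hpc : (1 : ℝ) ≤ P.card := by exact_mod_cast hP.card_pos
    have hp : 1 / (M : ℝ) ≤ (P.card : ℝ) / M := div_le_div_of_nonneg_right hpc (by positivity)
    set P' := P.map E.toEmbedding with hP'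
    set Q' := Q.map E.toEmbedding with hQ'
    have hPc : P'.card = P.card := Finset.card_map _
    have hQc : Q'.card = P.card := (Finset.card_map _).trans hPQ.symm
    have hf2' := hf2 P' Q' (hPc.trans hQc.symm) (by rw [← Finset.card_pos, hPc]; exact hP.card_pos)
    rw [hPc] at hf2'
    set p : ℝ := (P.card : ℝ) / M with hpdef
    have hp0 : 0 < p := lt_of_lt_of_le (by positivity) hp
    have hpd : (d : ℝ) / M ≤ p * d := by
      have := mul_le_mul_of_nonneg_right hp hd0.le
      rwa [one_div_mul_eq_div] at this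
    change γ / 100 * (p * d) * A.card ≤ ff G (p * d / 2) (clN U o hM f Q') A B
    have h100 : γ / 100 * (p * d) * A.card ≤ γ / 64 * (p * d) * A.card := by
      have : 0 ≤ γ * (p * d) * A.card := by positivity
      linarith
    refine h100.trans ?_
    by_cases hbig : (4 + 64 / γ) * M ≤ (A.card : ℝ)
    · -- large sets
      have h1 : γ / 32 * (p * d) * (A \ lastU U o M).card ≤
          ff G (p * d / 2) (cc M (bkU U o M) (psU U o hM) f Q') (A \ lastU U o M)
            (B \ lastU U o M) := by
        apply hf2'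
        · intro v hv
          rw [Finset.mem_sdiff] at hv
          rcases Finset.mem_union.1 (clN_sub U o hM f P' (hA hv.1)) with h3 | h3
          · exact h3
          · exact absurd h3 hv.2
        · intro v hv
          rw [Finset.mem_sdiff] at hv
          rcases Finset.mem_union.1 (clN_sub U o hM f Q' (hB hv.1)) with h3 | h3
          · exact h3
          · exact absurd h3 hv.2
        · have h3 : (A \ lastU U o M).card ≤ A.card := Finset.card_le_card Finset.sdiff_subset
          have h4 : (clN U o hM f P').card ≤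
              (cc M (bkU U o M) (psU U o hM) f P').card + M :=
            (Finset.card_le_card (clN_sub U o hM f P')).trans
              ((Finset.card_union_le _ _).trans (Nat.add_le_add_left hlast _))
          omega
      have h2 := ff_bigU G (C' := clN U o hM f Q') (M := M) (M' := M + 3) (τ := p * d / 2)
        (g := γ / 32 * (p * d)) (by positivity) (by positivity) hlast
        Finset.subset_union_left hL3 (cc_subU U o hM f Q') h1
      refine le_trans ?_ h2
      have h3 : (4 + 64 / γ) * M * γ ≤ (A.card : ℝ) * γ := mul_le_mul_of_nonneg_right hbig hγ.le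
      have h4 : (4 + 64 / γ) * M * γ = 4 * M * γ + 64 * M := by field_simp
      rw [h4] at h3
      have h5 : 128 * ((M : ℝ) + 3) ≤ γ * (p * d) := by
        have h6 : 128 * (((M : ℝ) + 3) * M) / γ ≤ d := by linarith
        rw [div_le_iff₀ hγ] at h6
        have h7 : 128 * ((M : ℝ) + 3) ≤ γ * (d / M) := by
          rw [← mul_div_assoc, le_div_iff₀ hM0]
          linarith
        exact h7.trans (mul_le_mul_of_nonneg_left hpd hγ.le)
      have h6 : 0 ≤ (p * d) * ((A.card : ℝ) * γ - 4 * M * γ - 64 * M) :=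
        mul_nonneg (by positivity) (by linarith)
      have h7 : 128 * ((M : ℝ) + 3) * A.card ≤ γ * (p * d) * A.card :=
        mul_le_mul_of_nonneg_right h5 (Nat.cast_nonneg _)
      push_cast
      nlinarith
    · -- small sets
      push Not at hbig
      have h1 : (A.card : ℝ) ≤ p * d / 2 := by
        have h2 : 2 * ((4 + 64 / γ) * M) ≤ d / M := by
          rw [le_div_iff₀ hM0]
          have h8 : 2 * ((4 + 64 / γ) * M) * M = 8 * (M : ℝ) ^ 2 + 128 * (M * M) / γ := by
            field_simp
            ring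
          have h9 : 128 * ((M : ℝ) * M) / γ ≤ 128 * ((M + 3) * M) / γ := by
            apply div_le_div_of_nonneg_right _ hγ.le
            nlinarith
          linarith
        linarith
      have h2 : ∀ a, p * d - δ' * d ≤ ((nb G a ∩ clN U o hM f Q').card : ℝ) := by
        intro a
        have h3 := (abs_le.1 (hD a Q')).1
        rw [hQc, ← hpdef] at h3
        linarith
      have h3 := ff_small (B := B) G h1 h2
      refine le_trans ?_ h3
      have h4 : δ' ≤ p / 8 := by
        have h5 : 64 * (M : ℝ) * δ' ≤ 1 / M := by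
          rw [le_div_iff₀ hM0]
          nlinarith
        nlinarith
      apply mul_le_mul_of_nonneg_right _ (Nat.cast_nonneg _)
      have h5 : δ' * d ≤ p / 8 * d := mul_le_mul_of_nonneg_right h4 hd0.le
      have h6 : γ / 64 * (p * d) ≤ 1 / 64 * (p * d) :=
        mul_le_mul_of_nonneg_right (by linarith) (by positivity)
      have h7 : 0 < p * d := by positivity
      linarith
  · -- sparsity
    intro v P hP
    rw [hcls, hM2, mul_div_right_comm]
    have hpc : (1 : ℝ) ≤ P.card := by exact_mod_cast hP.card_pos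
    have hp : 1 / (M : ℝ) ≤ (P.card : ℝ) / M := div_le_div_of_nonneg_right hpc (by positivity)
    have hpM : (P.card : ℝ) / M ≤ 1 := by
      rw [div_le_one hM0, ← hM2]
      have h1 : P.card ≤ Fintype.card (Bool × T) := Finset.card_le_univ _
      rw [Fintype.card_prod, Fintype.card_bool] at h1
      exact_mod_cast h1
    set P' := P.map E.toEmbedding with hP'
    have hPc : P'.card = P.card := Finset.card_map _
    have h1 := (hf1 v P').2
    have h2 := (abs_le.1 (hD v P')).1
    rw [hPc] at h1 h2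
    set p : ℝ := (P.card : ℝ) / M with hpdef
    have hp0 : 0 < p := lt_of_lt_of_le (by positivity) hp
    have h3 : ee G (nb G v ∩ clN U o hM f P') (nb G v ∩ clN U o hM f P') ≤
        ee G (nb G v ∩ cc M (bkU U o M) (psU U o hM) f P')
          (nb G v ∩ cc M (bkU U o M) (psU U o hM) f P') + 2 * M * d := by
      refine ee_le G hdeg (L := lastU U o M) ?_ hlast
        ((Finset.card_le_card Finset.inter_subset_left).trans (hdeg v))
      intro w hw
      rw [Finset.mem_inter] at hw
      rcases Finset.mem_union.1 (clN_sub U o hM f P' hw.2) with h3 | h3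
      · exact Finset.mem_union_left _ (Finset.mem_inter.2 ⟨hw.1, h3⟩)
      · exact Finset.mem_union_right _ h3
    have hnbd : ((nb G v).card : ℝ) ≤ d := by exact_mod_cast hdeg v
    have h4 : ee G (nb G v) (nb G v) ≤ (1 - γ) * (d : ℝ) ^ 2 := by
      refine (hBE (nb G v) (nb G v) le_rfl ?_).trans ?_
      · have h5 : (2 * d : ℝ) ≤ Fintype.card V := by nlinarith
        have h6 : 2 * d ≤ Fintype.card V := by exact_mod_cast h5
        have := hdeg v
        omega
      · have : (1 - γ) * d * (nb G v).card ≤ (1 - γ) * d * d :=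
          mul_le_mul_of_nonneg_left hnbd (mul_nonneg (by linarith) hd0.le)
        nlinarith
    have h5 := mis_ge G (nb G v ∩ clN U o hM f P')
    refine le_trans ?_ h5
    have h6 : ((nb G v ∩ clN U o hM f P').card : ℝ) ≤ d := by
      exact_mod_cast (Finset.card_le_card Finset.inter_subset_left).trans (hdeg v)
    set S : ℝ := ((nb G v ∩ clN U o hM f P').card : ℝ) with hS
    -- numbers
    have hMp : 1 ≤ (M : ℝ) * p := by
      have := mul_le_mul_of_nonneg_left hp hM0.le
      rwa [mul_one_div_cancel hM0.ne'] at this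
    have h7 : 64 * δ' ≤ γ * p ^ 2 := by
      have h8 : 64 * δ' * ((M : ℝ) * p) ^ 2 ≤ γ * p ^ 2 := by
        have := mul_le_mul_of_nonneg_right hδ'M' (sq_nonneg p)
        nlinarith
      have h9 : 64 * δ' * 1 ≤ 64 * δ' * ((M : ℝ) * p) ^ 2 :=
        mul_le_mul_of_nonneg_left (one_le_pow₀ hMp) (by positivity)
      linarith
    have h8 : δ' ≤ p := by nlinarith
    have h9 : (p * d - δ' * d) ^ 2 ≤ S ^ 2 := by
      apply pow_le_pow_left₀
      · have := mul_le_mul_of_nonneg_right h8 hd0.le
        linarith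
      · linarith
    have h10 : p ^ 2 * ee G (nb G v) (nb G v) ≤ p ^ 2 * ((1 - γ) * (d : ℝ) ^ 2) :=
      mul_le_mul_of_nonneg_left h4 (sq_nonneg p)
    have h11 : 2 * (M : ℝ) * d ≤ δ' / 2 * (d : ℝ) ^ 2 := by nlinarith
    have h12 : (d : ℝ) ≤ δ' * (d : ℝ) ^ 2 := by nlinarith
    have h13 : 64 * δ' * (d : ℝ) ^ 2 ≤ γ * p ^ 2 * (d : ℝ) ^ 2 :=
      mul_le_mul_of_nonneg_right h7 (by positivity)
    have h14 : δ' * p * (d : ℝ) ^ 2 ≤ δ' * (d : ℝ) ^ 2 := by
      have : δ' * p ≤ δ' * 1 := mul_le_mul_of_nonneg_left hpM hδ'0.le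
      exact mul_le_mul_of_nonneg_right (by linarith) (by positivity)
    have h15 : (p * d - δ' * d) ^ 2 = p ^ 2 * (d : ℝ) ^ 2 - 2 * (δ' * p * (d : ℝ) ^ 2) +
        δ' ^ 2 * (d : ℝ) ^ 2 := by ring
    have h16 : 0 ≤ δ' ^ 2 * (d : ℝ) ^ 2 := by positivity
    have h17 : 0 ≤ γ * p ^ 2 * (d : ℝ) ^ 2 := by positivity
    nlinarith

end Pool.Agent.Work.MP_db9399_exp.helper6
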